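import Pool.Agent.Helper5.Core2.Defs

set_option autoImplicit false

namespace Pool.Agent.Helper32.Core2

open Subgroup Pool.Agent.Helper5.Core2

section

variable {G : Type*} [Group G]

/-- The subgroup `{1, a, b, ab}` for commuting involutions. -/
def Four (a b : G) (ha : a * a = 1) (hb : b * b = 1) (hab : a * b = b * a) : Subgroup G where
  carrier := {g | g = 1 ∨ g = a ∨ g = b ∨ g = a * b}
  one_mem' := Or.inl rfl
  mul_mem' := by
    have e1 : a * (a * b) = b := by rw [← mul_assoc, ha, one_mul]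
    have e2 : b * (a * b) = a := by rw [hab, ← mul_assoc, hb, one_mul]
    have e3 : a * b * a = b := by rw [hab, mul_assoc, ha, mul_one]
    have e4 : a * b * b = a := by rw [mul_assoc, hb, mul_one]
    have e5 : a * b * (a * b) = 1 := by rw [mul_assoc, e2, ha]
    rintro g h (rfl | rfl | rfl | rfl) (rfl | rfl | rfl | rfl) <;>
      simp [ha, hb, e1, e2, e3, e4, e5, ← hab]
  inv_mem' := by
    have ia : a⁻¹ = a := inv_eq_of_mul_eq_one_left ha
    have ib : b⁻¹ = b := inv_eq_of_mul_eq_one_left hb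
    rintro g (rfl | rfl | rfl | rfl)
    · simp
    · right; left; exact ia
    · right; right; left; exact ib
    · right; right; right
      rw [mul_inv_rev, ia, ib, hab]

theorem mem_Four {a b : G} {ha : a * a = 1} {hb : b * b = 1} {hab : a * b = b * a} {g : G} :
    g ∈ Four a b ha hb hab ↔ (g = 1 ∨ g = a ∨ g = b ∨ g = a * b) := Iff.rfl

theorem PP_le {g h : G} {S : Subgroup G} (h1 : g ^ 2 ∈ S) (h2 : h ^ 2 ∈ S)
    (h3 : (g * h) ^ 2 ∈ S) : PP g h ≤ S :=
  sup_le (sup_le (zpowers_le.2 h1) (zpowers_le.2 h2)) (zpowers_le.2 h3)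

theorem Four_le_center {a b : G} {ha : a * a = 1} {hb : b * b = 1} {hab : a * b = b * a}
    (hac : a ∈ center G) (hbc : b ∈ center G) : Four a b ha hb hab ≤ center G := by
  rintro g (rfl | rfl | rfl | rfl)
  · exact one_mem _
  · exact hac
  · exact hbc
  · exact mul_mem hac hbc

theorem cc {a : G} (ha : a ∈ center G) (g : G) : a * g = g * a :=
  (mem_center_iff.mp ha g).symm

theorem cc' {a : G} (ha : a ∈ center G) (g k : G) : g * (a * k) = a * (g * k) := by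
  rw [← mul_assoc, ← cc ha g, mul_assoc]

/-- The key contradiction. -/
theorem lemmaZ (h : IsC G) {x y e f t z A B E : G} (hz : z ∈ center G) (hA : A ∈ center G)
    (hB : B ∈ center G) (hE : E ∈ center G) (hz2 : z * z = 1) (hA2 : A * A = 1) (hB2 : B * B = 1)
    (hE2 : E * E = 1) (hx : x ^ 2 ∉ center G) (hyx : y * x * y⁻¹ = x⁻¹) (hye : y * e = e * y)
    (hyf : y * f = f * y) (hxe : x * e = A * (e * x)) (hxf : x * f = B * (f * x))
    (hef : e * f = E * (f * e)) (he2 : e * e = A) (hf2 : f * f = B) (hy2 : y * y = z)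
    (ht2 : t * t = z) (hte : t * e = e * t) (htf : t * f = f * t) (htx : t * x = x * t)
    (hyt : y * t = t⁻¹ * y) (z1 : z ≠ 1) (A1 : A ≠ 1) (B1 : B ≠ 1) (AB : A ≠ B) (E1 : E ≠ 1)
    (EA : E ≠ A) (EB : E ≠ B) (EAB : E ≠ A * B) : False := by
  have hAi : A⁻¹ = A := inv_eq_of_mul_eq_one_left hA2
  have hBi : B⁻¹ = B := inv_eq_of_mul_eq_one_left hB2
  have hEi : E⁻¹ = E := inv_eq_of_mul_eq_one_left hE2
  have hzi : z⁻¹ = z := inv_eq_of_mul_eq_one_left hz2
  have hex : e * x = A * (x * e) := by rw [hxe, ← mul_assoc, hA2, one_mul]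
  have hfx : f * x = B * (x * f) := by rw [hxf, ← mul_assoc, hB2, one_mul]
  have hxi : ∀ S : G, S ∈ center G → S * (x⁻¹ * x⁻¹) ∉ center G := by
    intro S hS h1
    apply hx
    have h2 : (x⁻¹ * x⁻¹) ∈ center G := by
      have := mul_mem (inv_mem hS) h1
      rwa [inv_mul_cancel_left] at this
    have h3 := inv_mem h2
    have h4 : (x⁻¹ * x⁻¹)⁻¹ = x ^ 2 := by group
    rwa [h4] at h3
  -- commutators with `x`
  have c1 : y * x * y⁻¹ * x⁻¹ = x⁻¹ * x⁻¹ := by rw [hyx]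
  have key : ∀ s w S : G, S ∈ center G → w * x = S * (x * w) → s = y * w →
      s * x * s⁻¹ * x⁻¹ ∉ center G := by
    intro s w S hS hw hs h1
    have : s * x * s⁻¹ * x⁻¹ = S * (x⁻¹ * x⁻¹) := by
      rw [hs]
      calc y * w * x * (y * w)⁻¹ * x⁻¹ = y * (w * x) * w⁻¹ * y⁻¹ * x⁻¹ := by group
        _ = y * (S * (x * w)) * w⁻¹ * y⁻¹ * x⁻¹ := by rw [hw]
        _ = (y * S) * x * y⁻¹ * x⁻¹ := by group
        _ = (S * y) * x * y⁻¹ * x⁻¹ := by rw [cc hS y]
        _ = S * (y * x * y⁻¹) * x⁻¹ := by group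
        _ = S * (x⁻¹ * x⁻¹) := by rw [hyx]; group
    rw [this] at h1
    exact hxi S hS h1
  have ky : y * x * y⁻¹ * x⁻¹ ∉ center G := by
    refine key y 1 1 (one_mem _) (by simp) (by simp)
  have kye : y * e * x * (y * e)⁻¹ * x⁻¹ ∉ center G := key _ e A hA hex rfl
  have kyf : y * f * x * (y * f)⁻¹ * x⁻¹ ∉ center G := key _ f B hB hfx rfl
  have hytf : t * f * x = B * (x * (t * f)) := by
    rw [mul_assoc, hfx, cc' hB, ← mul_assoc t x f, htx, mul_assoc x t f]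
  have kytf : y * (t * f) * x * (y * (t * f))⁻¹ * x⁻¹ ∉ center G := key _ (t * f) B hB hytf rfl
  -- first pair
  have sqye : (y * e) ^ 2 = z * A := by
    rw [pow_two]
    calc y * e * (y * e) = y * (e * y) * e := by group
      _ = y * (y * e) * e := by rw [hye]
      _ = (y * y) * (e * e) := by group
      _ = z * A := by rw [hy2, he2]
  have sqyf : (y * f) ^ 2 = z * B := by
    rw [pow_two]
    calc y * f * (y * f) = y * (f * y) * f := by group
      _ = y * (y * f) * f := by rw [hyf]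
      _ = (y * y) * (f * f) := by group
      _ = z * B := by rw [hy2, hf2]
  have cef : e * f * e⁻¹ * f⁻¹ = E := by rw [hef]; group
  have cfe : f * e * f⁻¹ * e⁻¹ = E := by
    have : f * e * f⁻¹ * e⁻¹ = (e * f * e⁻¹ * f⁻¹)⁻¹ := by group
    rw [this, cef, hEi]
  have p1 : E = z ∨ E = z * A := by
    have hle : PP y e ≤ Four z A hz2 hA2 (cc hz A) := by
      refine PP_le ?_ ?_ ?_
      · rw [pow_two, hy2]; exact Or.inr (Or.inl rfl)
      · rw [pow_two, he2]; exact Or.inr (Or.inr (Or.inl rfl))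
      · rw [sqye]; exact Or.inr (Or.inr (Or.inr rfl))
    rcases h.star y e with h1 | h1 | h1
    · exact absurd (Four_le_center hz hA (hle (h1 x))) ky
    · have h2 := hle (h1 f)
      rw [cef] at h2
      rcases h2 with h2 | h2 | h2 | h2
      · exact absurd h2 E1
      · exact Or.inl h2
      · exact absurd h2 EA
      · exact Or.inr h2
    · exact absurd (Four_le_center hz hA (hle (h1 x))) kye
  have p2 : E = z ∨ E = z * B := by
    have hle : PP y f ≤ Four z B hz2 hB2 (cc hz B) := by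
      refine PP_le ?_ ?_ ?_
      · rw [pow_two, hy2]; exact Or.inr (Or.inl rfl)
      · rw [pow_two, hf2]; exact Or.inr (Or.inr (Or.inl rfl))
      · rw [sqyf]; exact Or.inr (Or.inr (Or.inr rfl))
    rcases h.star y f with h1 | h1 | h1
    · exact absurd (Four_le_center hz hB (hle (h1 x))) ky
    · have h2 := hle (h1 e)
      rw [cfe] at h2
      rcases h2 with h2 | h2 | h2 | h2
      · exact absurd h2 E1
      · exact Or.inl h2
      · exact absurd h2 EB
      · exact Or.inr h2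
    · exact absurd (Four_le_center hz hB (hle (h1 x))) kyf
  have Ez : E = z := by
    rcases p1 with p1 | p1
    · exact p1
    rcases p2 with p2 | p2
    · exact p2
    exact absurd (mul_left_cancel (p1.symm.trans p2)) AB
  -- second pair
  have hti : t⁻¹ = z * t := by
    rw [← ht2]
    have h1 : t * t * (t * t) = 1 := by rw [ht2, hz2]
    rw [eq_comm]
    calc t * t * t = (t * t * (t * t)) * t⁻¹ := by group
      _ = t⁻¹ := by rw [h1, one_mul]
  have q1 : (y * (t * f)) ^ 2 = z * B := by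
    rw [pow_two]
    calc y * (t * f) * (y * (t * f)) = y * t * (f * y) * t * f := by group
      _ = y * t * (y * f) * t * f := by rw [hyf]
      _ = y * t * y * (f * t) * f := by group
      _ = y * t * y * (t * f) * f := by rw [htf]
      _ = y * t * (y * t) * (f * f) := by group
      _ = y * t * (t⁻¹ * y) * (f * f) := by rw [hyt]
      _ = y * y * (f * f) := by group
      _ = z * B := by rw [hy2, hf2]
  have q2 : (y * e) ^ 2 = z * A := sqye
  have q3 : (y * (t * f)) * (y * e) = t * (f * e) := by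
    calc (y * (t * f)) * (y * e) = y * t * (f * y) * e := by group
      _ = y * t * (y * f) * e := by rw [hyf]
      _ = (y * t) * y * f * e := by group
      _ = (t⁻¹ * y) * y * f * e := by rw [hyt]
      _ = t⁻¹ * (y * y) * f * e := by group
      _ = t⁻¹ * z * (f * e) := by rw [hy2]; group
      _ = t⁻¹ * (t * t) * (f * e) := by rw [ht2]
      _ = t * (f * e) := by group
  have q4 : (t * (f * e)) ^ 2 = A * B := by
    rw [pow_two]
    have r1 : (f * e) * t = t * (f * e) := by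
      rw [mul_assoc, ← hte, ← mul_assoc, ← htf, mul_assoc]
    calc t * (f * e) * (t * (f * e)) = t * ((f * e) * t) * (f * e) := by group
      _ = t * (t * (f * e)) * (f * e) := by rw [r1]
      _ = (t * t) * (f * (e * f) * e) := by group
      _ = z * (f * (E * (f * e)) * e) := by rw [ht2, hef]
      _ = z * ((f * E) * f * (e * e)) := by group
      _ = z * ((E * f) * f * (e * e)) := by rw [cc hE f]
      _ = z * E * (f * f) * (e * e) := by group
      _ = B * A := by rw [hf2, he2, Ez, hz2, one_mul]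
      _ = A * B := cc hB A
  have hzA2 : z * A * (z * A) = 1 := by
    rw [mul_assoc, cc' hz A, hA2, mul_one, hz2]
  have hzB2 : z * B * (z * B) = 1 := by
    rw [mul_assoc, cc' hz B, hB2, mul_one, hz2]
  have hprod : z * A * (z * B) = A * B := by
    calc z * A * (z * B) = z * (A * z) * B := by group
      _ = z * (z * A) * B := by rw [cc hz A]
      _ = (z * z) * A * B := by group
      _ = A * B := by rw [hz2, one_mul]
  have hle : PP (y * (t * f)) (y * e) ≤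
      Four (z * A) (z * B) hzA2 hzB2 (cc (mul_mem hz hA) (z * B)) := by
    refine PP_le ?_ ?_ ?_
    · rw [q1]; exact Or.inr (Or.inr (Or.inl rfl))
    · rw [q2]; exact Or.inr (Or.inl rfl)
    · rw [q3, q4, ← hprod]; exact Or.inr (Or.inr (Or.inr rfl))
  rcases h.star (y * (t * f)) (y * e) with h1 | h1 | h1
  · exact absurd (Four_le_center (mul_mem hz hA) (mul_mem hz hB) (hle (h1 x))) kytf
  · exact absurd (Four_le_center (mul_mem hz hA) (mul_mem hz hB) (hle (h1 x))) kye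
  · have h2 := hle (h1 e)
    rw [q3] at h2
    have h3 : t * (f * e) * e * (t * (f * e))⁻¹ * e⁻¹ = z := by
      calc t * (f * e) * e * (t * (f * e))⁻¹ * e⁻¹ = t * (f * e * f⁻¹) * (e * t)⁻¹ * (e * e⁻¹) := by
            group
        _ = t * (f * e * f⁻¹) * (t * e)⁻¹ * (e * e⁻¹) := by rw [hte]
        _ = t * (f * e * f⁻¹ * e⁻¹) * t⁻¹ := by group
        _ = t * E * t⁻¹ := by rw [cfe]
        _ = E * t * t⁻¹ := by rw [cc hE t]
        _ = z := by rw [mul_inv_cancel_right, Ez]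
    rw [h3] at h2
    rcases h2 with h2 | h2 | h2 | h2
    · exact z1 h2
    · exact A1 (by simpa using h2.symm)
    · exact B1 (by simpa using h2.symm)
    · rw [hprod] at h2
      exact EAB (Ez.trans h2)

theorem odd_mem [Finite G] (h2 : IsPGroup 2 G) (g : G) {m : ℤ} (hm : Odd m) :
    g ∈ zpowers (g ^ m) := by
  rw [mem_zpowers_zpow_iff]
  obtain ⟨n, hn⟩ := (IsPGroup.iff_orderOf.mp h2) g
  rw [hn]
  rw [Int.gcd_comm, ← Int.isCoprime_iff_gcd_eq_one]
  push_cast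
  apply IsCoprime.pow_left
  obtain ⟨k, hk⟩ := hm
  exact ⟨-k, 1, by rw [hk]; ring⟩

theorem uniq {w t z : G} (ht : t ∈ zpowers w) (hz : z ∈ zpowers w) (ht2 : t * t = 1)
    (hz2 : z * z = 1) (hz1 : z ≠ 1) (ht1 : t ≠ 1) : t = z := by
  obtain ⟨i, rfl⟩ := mem_zpowers_iff.mp ht
  obtain ⟨k, rfl⟩ := mem_zpowers_iff.mp hz
  rw [← zpow_add, ← orderOf_dvd_iff_zpow_eq_one] at ht2 hz2
  rw [ne_eq, ← orderOf_dvd_iff_zpow_eq_one] at hz1 ht1
  obtain ⟨a, ha⟩ := ht2
  obtain ⟨b, hb⟩ := hz2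
  rcases Int.even_or_odd' a with ⟨a', rfl | rfl⟩
  · exact absurd ⟨a', by linarith⟩ ht1
  rcases Int.even_or_odd' b with ⟨b', rfl | rfl⟩
  · exact absurd ⟨b', by linarith⟩ hz1
  have h1 : (orderOf w : ℤ) ∣ i - k := ⟨a' - b', by linarith⟩
  rw [orderOf_dvd_iff_zpow_eq_one, zpow_sub, mul_inv_eq_one] at h1
  exact h1

theorem comm_yw {y w g S : G} (hS : S ∈ center G) (hw : w * g = S * (g * w))
    (hyg : y * g * y⁻¹ = g⁻¹) : y * w * g * (y * w)⁻¹ * g⁻¹ = S * (g⁻¹ * g⁻¹) := by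
  calc y * w * g * (y * w)⁻¹ * g⁻¹ = y * (w * g) * w⁻¹ * y⁻¹ * g⁻¹ := by group
    _ = y * (S * (g * w)) * w⁻¹ * y⁻¹ * g⁻¹ := by rw [hw]
    _ = (y * S) * g * y⁻¹ * g⁻¹ := by group
    _ = (S * y) * g * y⁻¹ * g⁻¹ := by rw [cc hS y]
    _ = S * (y * g * y⁻¹) * g⁻¹ := by group
    _ = S * (g⁻¹ * g⁻¹) := by rw [hyg]; group

/-- First part: `c² = x^{2j}` with `j` odd. -/
theorem lemmaJ [Finite G] (h : IsC G) {x y c d z A D : G} (hz : z ∈ center G)
    (hz2 : z * z = 1) (hz1 : z ≠ 1) (hzx : z ∈ zpowers (x ^ 2)) (hz4 : z ∈ zpowers (x ^ 4))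
    (hx : x ^ 2 ∉ center G) (hy : y * y = z)
    (yx : y * x * y⁻¹ = x⁻¹) (yc : y * c * y⁻¹ = c⁻¹) (yd : y * d * y⁻¹ = d⁻¹)
    (hA : A ∈ center G) (hD : D ∈ center G) (hA2 : A * A = 1) (hD2 : D * D = 1)
    (hcx : c * x = A * (x * c)) (hcd : c * d = D * (d * c))
    (A1 : A ≠ 1) (D1 : D ≠ 1) (AD : A ≠ D)
    (hc2 : c ^ 2 ∈ zpowers (x ^ 2)) (hd2 : d ^ 2 ∈ zpowers (x ^ 2)) :
    ∃ j : ℤ, Odd j ∧ c * c = x ^ j * x ^ j := by
  have hyc2 : (y * c) ^ 2 = z := by
    rw [pow_two]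
    calc y * c * (y * c) = (y * c * y⁻¹) * (y * y) * c := by group
      _ = c⁻¹ * (z * c) := by rw [yc, hy]; group
      _ = z := by rw [cc hz c]; group
  have key : ∀ S : Subgroup G, z ∈ S → c ^ 2 ∈ S → PP y c ≤ S := by
    intro S h1 h2
    refine PP_le ?_ h2 ?_
    · rw [pow_two, hy]; exact h1
    · rw [hyc2]; exact h1
  have hle : PP y c ≤ zpowers (x ^ 2) := key _ hzx hc2
  have hAz : A ∉ zpowers (x ^ 2) ∨ D ∉ zpowers (x ^ 2) := by
    by_contra hcon
    push Not at hcon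
    exact AD ((uniq hcon.1 hzx hA2 hz2 hz1 A1).trans (uniq hcon.2 hzx hD2 hz2 hz1 D1).symm)
  have hsq : ∀ w : G, w ^ 2 ∈ zpowers (x ^ 2) → ∀ S : G, S * (w⁻¹ * w⁻¹) ∈ zpowers (x ^ 2) →
      S ∈ zpowers (x ^ 2) := by
    intro w hw S hS
    have := mul_mem hS hw
    have e : S * (w⁻¹ * w⁻¹) * w ^ 2 = S := by group
    rwa [e] at this
  rcases h.star y c with h1 | h1 | h1
  · -- `k = y`
    obtain ⟨j, hj⟩ := mem_zpowers_iff.mp hc2
    refine ⟨j, ?_, ?_⟩
    · by_contra hodd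
      rw [Int.not_odd_iff_even] at hodd
      obtain ⟨m, rfl⟩ := hodd
      have hc4 : c ^ 2 ∈ zpowers (x ^ 4) := by
        rw [← hj]
        refine ⟨m, ?_⟩
        show (x ^ 4) ^ m = (x ^ 2) ^ (m + m)
        rw [← zpow_natCast, ← zpow_natCast, ← zpow_mul, ← zpow_mul]
        congr 1
        push_cast
        ring
      have h2 := key _ hz4 hc4 (h1 x)
      rw [yx] at h2
      have h3 : x ^ 2 ∈ zpowers (x ^ 4) := by
        have := inv_mem h2
        have e : (x⁻¹ * x⁻¹)⁻¹ = x ^ 2 := by group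
        rwa [e] at this
      obtain ⟨k, hk⟩ := mem_zpowers_iff.mp h3
      have h4 : (x ^ 2) ^ (2 * k - 1) = 1 := by
        have e : (x ^ 4) ^ k = (x ^ 2) ^ (2 * k) := by
          rw [← zpow_natCast, ← zpow_natCast, ← zpow_mul, ← zpow_mul]
          congr 1
          push_cast
          ring
        rw [zpow_sub, ← e, hk, zpow_one, mul_inv_cancel]
      have h5 := odd_mem h.two (x ^ 2) (m := 2 * k - 1) ⟨k - 1, by ring⟩
      rw [h4, zpowers_one_eq_bot, mem_bot] at h5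
      exact hx (h5 ▸ one_mem _)
    · rw [← pow_two, ← hj, ← zpow_natCast, ← zpow_mul, ← zpow_add]
      congr 1
      push_cast
      ring
  · -- `k = c`
    exfalso
    have h2 := hle (h1 x)
    have h3 := hle (h1 d)
    have e2 : c * x * c⁻¹ * x⁻¹ = A := by rw [hcx]; group
    have e3 : c * d * c⁻¹ * d⁻¹ = D := by rw [hcd]; group
    rw [e2] at h2
    rw [e3] at h3
    exact hAz.elim (fun h => h h2) (fun h => h h3)
  · exfalso
    have h2 := hle (h1 x)
    have h3 := hle (h1 d)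
    rw [comm_yw hA hcx yx] at h2
    rw [comm_yw hD hcd yd] at h3
    exact hAz.elim (fun h => h (hsq x (mem_zpowers _) _ h2)) (fun h => h (hsq d hd2 _ h3))

/-- `x ^ j` for odd `j` behaves like `x` with respect to central commutators of order two. -/
theorem odd_pow {x c A : G} (hA : A ∈ center G) (hA2 : A * A = 1) (hcx : x * c = A * (c * x))
    {j : ℤ} (hj : Odd j) : x ^ j * c = A * (c * x ^ j) := by
  have h1 : c⁻¹ * x * c⁻¹⁻¹ = A * x := by
    rw [inv_inv, mul_assoc, hcx, cc' hA, inv_mul_cancel_left]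
  have h2 : c⁻¹ * x ^ j * c⁻¹⁻¹ = A * x ^ j := by
    rw [← conj_zpow, h1, (show Commute A x from cc hA x).mul_zpow]
    congr 1
    obtain ⟨k, rfl⟩ := hj
    rw [zpow_add, zpow_mul, zpow_ofNat, pow_two, hA2, one_zpow, one_mul, zpow_one]
  rw [inv_inv] at h2
  calc x ^ j * c = c * (c⁻¹ * x ^ j * c) := by group
    _ = c * (A * x ^ j) := by rw [h2]
    _ = A * (c * x ^ j) := cc' hA _ _

theorem inv_pow_left {u c A : G} (hA : A ∈ center G) (hA2 : A * A = 1)
    (huc : u * c = A * (c * u)) : u⁻¹ * c = A * (c * u⁻¹) := by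
  have h1 : c * u = A * (u * c) := by rw [huc, ← mul_assoc, hA2, one_mul]
  calc u⁻¹ * c = u⁻¹ * (c * u) * u⁻¹ := by group
    _ = u⁻¹ * (A * (u * c)) * u⁻¹ := by rw [h1]
    _ = A * (u⁻¹ * (u * c)) * u⁻¹ := by rw [cc' hA]
    _ = A * (c * u⁻¹) := by group

theorem lemmaY [Finite G] (h : IsC G) {x y c d z A B D : G} (hz : z ∈ center G)
    (hz2 : z * z = 1) (hz1 : z ≠ 1) (hzx : z ∈ zpowers (x ^ 2)) (hx : x ^ 2 ∉ center G)
    (hcC : c ∈ CC G) (hdC : d ∈ CC G) (hy : y * y = z)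
    (yx : y * x * y⁻¹ = x⁻¹) (yc : y * c * y⁻¹ = c⁻¹) (yd : y * d * y⁻¹ = d⁻¹)
    (hA : A ∈ center G) (hB : B ∈ center G) (hD : D ∈ center G)
    (hA2 : A * A = 1) (hB2 : B * B = 1) (hD2 : D * D = 1)
    (hxc : x * c = A * (c * x)) (hxd : x * d = B * (d * x)) (hcd : c * d = D * (d * c))
    (A1 : A ≠ 1) (B1 : B ≠ 1) (D1 : D ≠ 1) (AB : A ≠ B) (AD : A ≠ D) (BD : B ≠ D)
    (ABD : A * B * D ≠ 1)
    (Y : ∀ g, y * g * y⁻¹ * g⁻¹ ∈ zpowers (x ^ 2)) : False := by
  -- `z ∈ zpowers (x ^ 4)`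
  have hz4 : z ∈ zpowers (x ^ 4) ∧ ∃ m : ℤ, (x ^ 2) ^ m * (x ^ 2) ^ m = z := by
    obtain ⟨k, hk⟩ := mem_zpowers_iff.mp hzx
    rcases Int.even_or_odd k with ⟨m, rfl⟩ | hodd
    · constructor
      · refine ⟨m, ?_⟩
        show (x ^ 4) ^ m = z
        rw [← hk, ← zpow_natCast, ← zpow_natCast, ← zpow_mul, ← zpow_mul]
        congr 1
        push_cast
        ring
      · exact ⟨m, by rw [← zpow_add, hk]⟩
    · exfalso
      have h1 := odd_mem h.two (x ^ 2) hodd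
      rw [hk] at h1
      exact hx ((zpowers_le.2 hz) h1)
  obtain ⟨hz4, m, hm⟩ := hz4
  have hsqi : ∀ w : G, y * w * y⁻¹ = w⁻¹ → w ^ 2 ∈ zpowers (x ^ 2) := by
    intro w hw
    have h1 := Y w
    rw [hw] at h1
    have := inv_mem h1
    have e : (w⁻¹ * w⁻¹)⁻¹ = w ^ 2 := by group
    rwa [e] at this
  have hc2 := hsqi c yc
  have hd2 := hsqi d yd
  have flip : ∀ {p q S : G}, S * S = 1 → p * q = S * (q * p) → q * p = S * (p * q) := by
    intro p q S hS hpq
    rw [hpq, ← mul_assoc, hS, one_mul]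
  obtain ⟨j, hj, hcj⟩ := lemmaJ h hz hz2 hz1 hzx hz4 hx hy yx yc yd hA hD hA2 hD2
    (flip hA2 hxc) hcd A1 D1 AD hc2 hd2
  obtain ⟨k, hk, hdk⟩ := lemmaJ h hz hz2 hz1 hzx hz4 hx hy yx yd yc hB hD hB2 hD2
    (flip hB2 hxd) (flip hD2 hcd) B1 D1 BD hd2 hc2
  have huc : x ^ j * c = A * (c * x ^ j) := odd_pow hA hA2 hxc hj
  have hud : x ^ j * d = B * (d * x ^ j) := odd_pow hB hB2 hxd hj
  have hvc : x ^ k * c = A * (c * x ^ k) := odd_pow hA hA2 hxc hk
  have hvd : x ^ k * d = B * (d * x ^ k) := odd_pow hB hB2 hxd hk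
  have hux : x ^ j * x = x * x ^ j := (Commute.refl x).zpow_left j
  have hvx : x ^ k * x = x * x ^ k := (Commute.refl x).zpow_left k
  have huv : x ^ j * x ^ k = x ^ k * x ^ j := by rw [← zpow_add, ← zpow_add, add_comm]
  have hyu : ∀ n : ℤ, y * x ^ n * y⁻¹ = (x ^ n)⁻¹ := by
    intro n
    rw [← conj_zpow, yx, inv_zpow]
  -- the element `t`
  have htm : ∀ w ∈ CC G, (x ^ 2) ^ m * w = w * (x ^ 2) ^ m := by
    intro w hw
    have h1 : Commute (x ^ 2) w := mem_centralizer_iff.mp hw (x ^ 2) ⟨x, rfl⟩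
    exact h1.zpow_left m
  have htx : (x ^ 2) ^ m * x = x * (x ^ 2) ^ m := ((Commute.refl x).pow_left 2).zpow_left m
  have hyt : y * (x ^ 2) ^ m = ((x ^ 2) ^ m)⁻¹ * y := by
    have e : (x ^ 2) ^ m = x ^ (2 * m) := by
      rw [← zpow_natCast, ← zpow_mul]; rfl
    have := hyu (2 * m)
    rw [e, ← this]
    group
  have htu : ∀ n : ℤ, (x ^ 2) ^ m * (x ^ n)⁻¹ = (x ^ n)⁻¹ * (x ^ 2) ^ m := by
    intro n
    have h1 : Commute ((x ^ 2) ^ m) (x ^ n) :=
      (((Commute.refl x).pow_left 2).zpow_left m).zpow_right n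
    exact h1.inv_right
  have htuj := htu j
  have htuk := htu k
  have hyuj := hyu j
  have hyuk := hyu k
  have htc := htm c hcC
  have htd := htm d hdC
  clear htu hyu htm
  generalize (x ^ 2) ^ m = t at *
  generalize x ^ j = u at *
  generalize x ^ k = v at *
  -- properties of `c u⁻¹` and `d v⁻¹`
  have gen : ∀ (c u A : G), A ∈ center G → A * A = 1 → u * c = A * (c * u) → c * c = u * u →
      y * c * y⁻¹ = c⁻¹ → y * u * y⁻¹ = u⁻¹ → u * x = x * u → x * c = A * (c * x) →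
      t * c = c * t → t * u⁻¹ = u⁻¹ * t →
      (c * u⁻¹) * (c * u⁻¹) = A ∧ y * (c * u⁻¹) = (c * u⁻¹) * y ∧
      x * (c * u⁻¹) = A * ((c * u⁻¹) * x) ∧ t * (c * u⁻¹) = (c * u⁻¹) * t := by
    intro c u A hA hA2 huc hcu yc yu hux hxc htc htu
    refine ⟨?_, ?_, ?_, ?_⟩
    · calc c * u⁻¹ * (c * u⁻¹) = c * (u⁻¹ * c) * u⁻¹ := by group
        _ = c * (A * (c * u⁻¹)) * u⁻¹ := by rw [inv_pow_left hA hA2 huc]
        _ = A * (c * (c * u⁻¹)) * u⁻¹ := by rw [cc' hA]
        _ = A * ((c * c) * (u⁻¹ * u⁻¹)) := by group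
        _ = A := by rw [hcu]; group
    · have h1 : c * u⁻¹ = c⁻¹ * u := by
        calc c * u⁻¹ = c⁻¹ * (c * c) * u⁻¹ := by group
          _ = c⁻¹ * u := by rw [hcu]; group
      have h2 : y * (c * u⁻¹) * y⁻¹ = c * u⁻¹ := by
        calc y * (c * u⁻¹) * y⁻¹ = (y * c * y⁻¹) * (y * u * y⁻¹)⁻¹ := by group
          _ = c⁻¹ * u := by rw [yc, yu, inv_inv]
          _ = c * u⁻¹ := h1.symm
      calc y * (c * u⁻¹) = (y * (c * u⁻¹) * y⁻¹) * y := by group
        _ = _ := by rw [h2]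
    · have h1 : x * u⁻¹ = u⁻¹ * x := by
        calc x * u⁻¹ = u⁻¹ * (u * x) * u⁻¹ := by group
          _ = u⁻¹ * x := by rw [hux]; group
      calc x * (c * u⁻¹) = (x * c) * u⁻¹ := by group
        _ = A * (c * (x * u⁻¹)) := by rw [hxc]; group
        _ = A * (c * u⁻¹ * x) := by rw [h1]; group
    · rw [← mul_assoc, htc, mul_assoc, htu, mul_assoc]
  obtain ⟨e1, e2, e3, e4⟩ := gen c u A hA hA2 huc hcj yc hyuj hux hxc htc htuj
  obtain ⟨f1, f2, f3, f4⟩ := gen d v B hB hB2 hvd hdk yd hyuk hvx hxd htd htuk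
  have hef : (c * u⁻¹) * (d * v⁻¹) = (A * B * D) * ((d * v⁻¹) * (c * u⁻¹)) := by
    have h1 : u⁻¹ * v⁻¹ = v⁻¹ * u⁻¹ := by
      rw [← mul_inv_rev, ← mul_inv_rev, huv]
    calc (c * u⁻¹) * (d * v⁻¹) = c * (u⁻¹ * d) * v⁻¹ := by group
      _ = c * (B * (d * u⁻¹)) * v⁻¹ := by rw [inv_pow_left hB hB2 hud]
      _ = B * (c * (d * u⁻¹)) * v⁻¹ := by rw [cc' hB]
      _ = B * (c * d) * (u⁻¹ * v⁻¹) := by group
      _ = B * (D * (d * c)) * (v⁻¹ * u⁻¹) := by rw [hcd, h1]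
      _ = B * D * (d * (c * v⁻¹) * u⁻¹) := by group
      _ = B * D * (d * (A * (A * (c * v⁻¹))) * u⁻¹) := by rw [← mul_assoc A A, hA2, one_mul]
      _ = B * D * (d * (A * (v⁻¹ * c)) * u⁻¹) := by rw [← inv_pow_left hA hA2 hvc]
      _ = B * D * (A * (d * (v⁻¹ * c)) * u⁻¹) := by rw [cc' hA d]
      _ = ((B * D) * A) * ((d * v⁻¹) * (c * u⁻¹)) := by group
      _ = (A * (B * D)) * ((d * v⁻¹) * (c * u⁻¹)) := by rw [cc hA (B * D)]
      _ = (A * B * D) * ((d * v⁻¹) * (c * u⁻¹)) := by group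
  have hABD2 : A * B * D * (A * B * D) = 1 := by
    calc A * B * D * (A * B * D) = A * ((B * D) * (A * (B * D))) := by group
      _ = A * (A * ((B * D) * (B * D))) := by rw [cc' hA]
      _ = (A * A) * (B * (D * (B * D))) := by group
      _ = 1 := by rw [hA2, one_mul, cc' hB, hD2, mul_one, hB2]
  refine lemmaZ h hz hA hB (mul_mem (mul_mem hA hB) hD) hz2 hA2 hB2 hABD2 hx yx e2 f2 e3 f3 hef
    e1 f1 hy hm e4 f4 htx hyt hz1 A1 B1 AB ABD ?_ ?_ ?_
  · intro h1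
    have h2 : B * D = 1 := by rwa [mul_assoc, mul_eq_left] at h1
    exact BD (by rw [← mul_one B, ← hD2, ← mul_assoc, h2, one_mul])
  · intro h1
    have h2 : A * D = 1 := by
      rw [mul_assoc, cc' hB] at h1
      rwa [cc hB, mul_eq_right] at h1
    exact AD (by rw [← mul_one A, ← hD2, ← mul_assoc, h2, one_mul])
  · intro h1
    exact D1 (by rwa [mul_eq_left] at h1)

theorem inv_of_sq {y w z : G} (hy : y ^ 2 = z) (hyw : (y * w) ^ 2 = z) : y * w * y⁻¹ = w⁻¹ := by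
  rw [← hy, pow_two, pow_two] at hyw
  have h1 : w * y * w = y := by
    have : y * (w * y * w) = y * y := by rw [← hyw]; group
    exact mul_left_cancel this
  calc y * w * y⁻¹ = w⁻¹ * (w * y * w) * y⁻¹ := by group
    _ = w⁻¹ := by rw [h1]; group

theorem comm_sq {x c A : G} (hxC : c ∈ CC G) (hA : A ∈ center G) (hxc : x * c = A * (c * x)) :
    A * A = 1 := by
  have h1 : x ^ 2 * c = c * x ^ 2 := mem_centralizer_iff.mp hxC (x ^ 2) ⟨x, rfl⟩
  rw [pow_two] at h1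
  have h2 : x * x * c = A * A * (c * (x * x)) := by
    calc x * x * c = x * (x * c) := by group
      _ = x * (A * (c * x)) := by rw [hxc]
      _ = A * (x * (c * x)) := cc' hA _ _
      _ = A * ((x * c) * x) := by group
      _ = A * (A * (c * x) * x) := by rw [hxc]
      _ = A * A * (c * (x * x)) := by group
  rw [h1] at h2
  exact (mul_eq_right.mp h2.symm)

theorem case8b [Finite G] (h : IsC G) {y x c d z : G} (hz : z ∈ center G) (hz2 : z ^ 2 = 1)
    (hz1 : z ≠ 1) (hzx : z ∈ zpowers (x ^ 2)) (hx : x ^ 2 ∉ center G)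
    (hxC : x ∈ CC G) (hcC : c ∈ CC G) (hdC : d ∈ CC G)
    (hy : y ^ 2 = z) (hyx : (y * x) ^ 2 = z) (hyc : (y * c) ^ 2 = z) (hyd : (y * d) ^ 2 = z)
    (_hlast : (y * (x * (c * d))) ^ 2 ≠ 1)
    (hA : x * c * x⁻¹ * c⁻¹ ∈ center G) (hB : x * d * x⁻¹ * d⁻¹ ∈ center G)
    (hD : c * d * c⁻¹ * d⁻¹ ∈ center G)
    (hA1 : x * c * x⁻¹ * c⁻¹ ≠ 1) (hB1 : x * d * x⁻¹ * d⁻¹ ≠ 1) (hD1 : c * d * c⁻¹ * d⁻¹ ≠ 1)
    (hAB : (x * c * x⁻¹ * c⁻¹) * (x * d * x⁻¹ * d⁻¹) ≠ 1)
    (hAD : (x * c * x⁻¹ * c⁻¹) * (c * d * c⁻¹ * d⁻¹) ≠ 1)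
    (hBD : (x * d * x⁻¹ * d⁻¹) * (c * d * c⁻¹ * d⁻¹) ≠ 1)
    (hABD : (x * c * x⁻¹ * c⁻¹) * (x * d * x⁻¹ * d⁻¹) * (c * d * c⁻¹ * d⁻¹) ≠ 1) : False := by
  have yx := inv_of_sq hy hyx
  have yc := inv_of_sq hy hyc
  have yd := inv_of_sq hy hyd
  have hxc : x * c = (x * c * x⁻¹ * c⁻¹) * (c * x) := by group
  have hxd : x * d = (x * d * x⁻¹ * d⁻¹) * (d * x) := by group
  have hcd : c * d = (c * d * c⁻¹ * d⁻¹) * (d * c) := by group
  generalize x * c * x⁻¹ * c⁻¹ = A at *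
  generalize x * d * x⁻¹ * d⁻¹ = B at *
  generalize c * d * c⁻¹ * d⁻¹ = D at *
  have hA2 := comm_sq hcC hA hxc
  have hB2 := comm_sq hdC hB hxd
  have hD2 := comm_sq hdC hD hcd
  have hz2' : z * z = 1 := by rw [← pow_two, hz2]
  have hy' : y * y = z := by rw [← pow_two, hy]
  have AB : A ≠ B := by rintro rfl; exact hAB hA2
  have AD : A ≠ D := by rintro rfl; exact hAD hA2
  have BD : B ≠ D := by rintro rfl; exact hBD hB2
  have hle : PP y x ≤ zpowers (x ^ 2) := by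
    refine PP_le ?_ (mem_zpowers _) ?_
    · rw [hy]; exact hzx
    · rw [hyx]; exact hzx
  rcases h.star y x with h1 | h1 | h1
  · exact lemmaY h hz hz2' hz1 hzx hx hcC hdC hy' yx yc yd hA hB hD hA2 hB2 hD2 hxc hxd hcd hA1 hB1
      hD1 AB AD BD hABD (fun g => hle (h1 g))
  · have h2 := hle (h1 c)
    have h3 := hle (h1 d)
    have e2 : x * c * x⁻¹ * c⁻¹ = A := by rw [hxc]; group
    have e3 : x * d * x⁻¹ * d⁻¹ = B := by rw [hxd]; group
    rw [e2] at h2
    rw [e3] at h3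
    exact AB ((uniq h2 hzx hA2 hz2' hz1 hA1).trans (uniq h3 hzx hB2 hz2' hz1 hB1).symm)
  · -- replace `y, x, c, d` by `yx, x, x⁻¹c, x⁻¹d`
    have hyx' : (y * x) * (y * x) = z := by rw [← pow_two, hyx]
    have hc' : x⁻¹ * c ∈ CC G := mul_mem (inv_mem hxC) hcC
    have hd' : x⁻¹ * d ∈ CC G := mul_mem (inv_mem hxC) hdC
    have y1 : y * x * x * (y * x)⁻¹ = x⁻¹ := by
      calc y * x * x * (y * x)⁻¹ = y * x * y⁻¹ := by group
        _ = x⁻¹ := yx
    have y2 : ∀ w, y * w * y⁻¹ = w⁻¹ → y * x * (x⁻¹ * w) * (y * x)⁻¹ = (x⁻¹ * w)⁻¹ := by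
      intro w hw
      calc y * x * (x⁻¹ * w) * (y * x)⁻¹ = (y * w * y⁻¹) * (y * x * y⁻¹)⁻¹ := by group
        _ = (x⁻¹ * w)⁻¹ := by rw [hw, yx]; group
    have r : ∀ (w S : G), S ∈ center G → x * w = S * (w * x) →
        x * (x⁻¹ * w) = S * (x⁻¹ * w * x) := by
      intro w S hS hw
      calc x * (x⁻¹ * w) = x⁻¹ * (x * w) := by group
        _ = x⁻¹ * (S * (w * x)) := by rw [hw]
        _ = S * (x⁻¹ * (w * x)) := cc' hS _ _
        _ = S * (x⁻¹ * w * x) := by group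
    have r2 : ∀ (w S : G), S ∈ center G → S * S = 1 → x * w = S * (w * x) →
        w * x⁻¹ = S * (x⁻¹ * w) := by
      intro w S hS hS2 hw
      rw [inv_pow_left hS hS2 hw, ← mul_assoc, hS2, one_mul]
    have hcd' : (x⁻¹ * c) * (x⁻¹ * d) = (A * B * D) * ((x⁻¹ * d) * (x⁻¹ * c)) := by
      calc (x⁻¹ * c) * (x⁻¹ * d) = x⁻¹ * (c * x⁻¹) * d := by group
        _ = x⁻¹ * (A * (x⁻¹ * c)) * d := by rw [r2 c A hA hA2 hxc]
        _ = A * (x⁻¹ * (x⁻¹ * c)) * d := by rw [cc' hA]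
        _ = A * (x⁻¹ * x⁻¹ * (c * d)) := by group
        _ = A * (x⁻¹ * x⁻¹ * (D * (d * c))) := by rw [hcd]
        _ = A * (D * (x⁻¹ * x⁻¹ * (d * c))) := by rw [cc' hD]
        _ = A * (D * (x⁻¹ * (x⁻¹ * d) * c)) := by group
        _ = A * (D * (x⁻¹ * (B * (B * (x⁻¹ * d))) * c)) := by
            rw [← mul_assoc B B, hB2, one_mul]
        _ = A * (D * (x⁻¹ * (B * (d * x⁻¹)) * c)) := by rw [← r2 d B hB hB2 hxd]
        _ = A * (D * (B * (x⁻¹ * (d * x⁻¹)) * c)) := by rw [cc' hB]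
        _ = A * (D * (B * (x⁻¹ * d * (x⁻¹ * c)))) := by group
        _ = A * (B * (D * (x⁻¹ * d * (x⁻¹ * c)))) := by rw [cc' hB D]
        _ = (A * B * D) * ((x⁻¹ * d) * (x⁻¹ * c)) := by group
    have hABD2 : A * B * D * (A * B * D) = 1 := comm_sq hd' (mul_mem (mul_mem hA hB) hD) hcd'
    refine lemmaY h hz hz2' hz1 hzx hx hc' hd' hyx' y1 (y2 c yc) (y2 d yd) hA hB
      (mul_mem (mul_mem hA hB) hD) hA2 hB2 hABD2 (r c A hA hxc) (r d B hB hxd) hcd' hA1 hB1 hABD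
      AB ?_ ?_ ?_ (fun g => hle (h1 g))
    · intro h2
      have h3 : B * D = 1 := by
        rw [mul_assoc] at h2
        exact mul_eq_left.mp h2.symm
      exact hBD h3
    · intro h2
      have h3 : A * D = 1 := by
        rw [mul_assoc, cc' hB, cc hB] at h2
        exact mul_eq_right.mp h2.symm
      exact hAD h3
    · intro h2
      apply hD1
      calc D = (A * A) * (B * B) * D := by rw [hA2, hB2, one_mul, one_mul]
        _ = A * (A * B) * (B * D) := by group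
        _ = A * (B * A) * (B * D) := by rw [cc hA B]
        _ = A * B * (A * B * D) := by group
        _ = 1 := h2

end

end Pool.Agent.Helper32.Core2
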